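import Mathlib

/-!
# The flattening automaton has attractors outside the bunches of all zeroes and of all ones

The attractor: the ones are the points `(n ^ 2, j)` with `0 ≤ j ≤ n`, `n = 0, 1, 2, ...`. The `n`-th
vertical segment of ones survives for `n` steps, so that at every time there are infinitely many
ones (and infinitely many zeroes), but any finite perturbation of the configuration at any time is
forgotten in finite time.
-/

set_option autoImplicit false

namespace Pool.Agent.Results.MP_851083_pr.MixedAttractor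

/-- The local rule `F(a, b, c, d) = max(min(a, b), min(c, d))` (`true` is `1`, `false` is `0`). -/
def F (a b c d : Bool) : Bool := max (min a b) (min c d)

/-- The trajectory of the initial configuration `s`; `tr s t` is the configuration at time `t - 1`,
so `tr s 0 = s` is the initial configuration (time `-1`). -/
def tr (s : ℤ × ℤ → Bool) : ℕ → ℤ × ℤ → Bool
  | 0 => s
  | t + 1 => fun z => F (tr s t (z.1, z.2)) (tr s t (z.1, z.2 - 1)) (tr s t (z.1 - 1, z.2))
      (tr s t (z.1 - 1, z.2 - 1))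

/-- `s` is an attractor: for every finite perturbation `s'` of `s` the trajectories of `s` and `s'`
differ at only finitely many points `(t, z)` of space-time. -/
def IsAttractor (s : ℤ × ℤ → Bool) : Prop :=
  ∀ s' : ℤ × ℤ → Bool, {z | s z ≠ s' z}.Finite →
    {p : ℕ × (ℤ × ℤ) | tr s p.1 p.2 ≠ tr s' p.1 p.2}.Finite

lemma F_true {a b c d : Bool} (h : F a b c d = true) :
    (a = true ∧ b = true) ∨ (c = true ∧ d = true) := by
  revert h
  cases a <;> cases b <;> cases c <;> cases d <;> decide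

/-- a one at time `t` comes from ones in the same row and `t` rows lower -/
lemma origin (s : ℤ × ℤ → Bool) (t : ℕ) : ∀ i j : ℤ, tr s t (i, j) = true →
    (∃ i', i' ≤ i ∧ s (i', j) = true) ∧ (∃ i', i' ≤ i ∧ s (i', j - t) = true) := by
  induction t with
  | zero =>
    intro i j h
    refine ⟨⟨i, le_rfl, h⟩, ⟨i, le_rfl, ?_⟩⟩
    rw [Nat.cast_zero, sub_zero]
    exact h
  | succ t ih =>
    intro i j h
    have h' : F (tr s t (i, j)) (tr s t (i, j - 1)) (tr s t (i - 1, j))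
      (tr s t (i - 1, j - 1)) = true := h
    have key : ∀ i₀ : ℤ, i₀ ≤ i → tr s t (i₀, j) = true → tr s t (i₀, j - 1) = true →
        (∃ i', i' ≤ i ∧ s (i', j) = true) ∧
        (∃ i', i' ≤ i ∧ s (i', j - ((t + 1 : ℕ) : ℤ)) = true) := by
      intro i₀ hi₀ h1 h2
      obtain ⟨⟨i1, h3, h4⟩, -⟩ := ih i₀ j h1
      obtain ⟨-, ⟨i2, h5, h6⟩⟩ := ih i₀ (j - 1) h2
      refine ⟨⟨i1, h3.trans hi₀, h4⟩, ⟨i2, h5.trans hi₀, ?_⟩⟩
      rw [show j - ((t + 1 : ℕ) : ℤ) = j - 1 - t by push_cast; ring]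
      exact h6
    rcases F_true h' with ⟨h1, h2⟩ | ⟨h1, h2⟩
    · exact key i le_rfl h1 h2
    · exact key (i - 1) (by omega) h1 h2

/-- a difference at time `t` comes from an initial difference -/
lemma diff (s s' : ℤ × ℤ → Bool) (R : ℤ)
    (hR : ∀ z, s z ≠ s' z → -R ≤ z.1 ∧ z.1 ≤ R ∧ -R ≤ z.2 ∧ z.2 ≤ R) (t : ℕ) :
    ∀ z, tr s t z ≠ tr s' t z → -R ≤ z.1 ∧ z.1 ≤ R + t ∧ -R ≤ z.2 ∧ z.2 ≤ R + t := by
  induction t with
  | zero =>
    intro z hz
    simpa using hR z hz
  | succ t ih =>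
    intro z hz
    by_contra hcon
    apply hz
    have h1 : ∀ w : ℤ × ℤ, (w.1 = z.1 ∨ w.1 = z.1 - 1) → (w.2 = z.2 ∨ w.2 = z.2 - 1) →
        tr s t w = tr s' t w := by
      intro w hw1 hw2
      by_contra hne
      have := ih w hne
      apply hcon
      push_cast
      rcases hw1 with h | h <;> rcases hw2 with h' | h' <;>
        refine ⟨?_, ?_, ?_, ?_⟩ <;> omega
    show F _ _ _ _ = F _ _ _ _
    rw [h1 (z.1, z.2) (Or.inl rfl) (Or.inl rfl), h1 (z.1, z.2 - 1) (Or.inl rfl) (Or.inr rfl),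
      h1 (z.1 - 1, z.2) (Or.inr rfl) (Or.inl rfl), h1 (z.1 - 1, z.2 - 1) (Or.inr rfl) (Or.inr rfl)]

/-- the ones are in rows above `-A`, and in the rows `j > A` their column `i` has `j ^ 2 ≤ i` -/
def Sparse (A : ℤ) (s : ℤ × ℤ → Bool) : Prop :=
  ∀ i j : ℤ, s (i, j) = true → -A ≤ j ∧ (j ≤ A ∨ j ^ 2 ≤ i)

/-- no ones in the columns up to `R + t` at late times -/
lemma empty_late (s : ℤ × ℤ → Bool) (A R : ℤ) (hA : 0 ≤ A) (hR : 0 ≤ R) (hs : Sparse A s) (t : ℕ)
    (ht : 2 * A + R + 2 ≤ t) (i j : ℤ) (hi : i ≤ R + t) : tr s t (i, j) = false := by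
  rw [← Bool.not_eq_true]
  intro h
  obtain ⟨⟨i1, h1, h2⟩, ⟨i2, h3, h4⟩⟩ := origin s t i j h
  have h5 := (hs _ _ h4).1
  rcases (hs _ _ h2).2 with h6 | h6
  · omega
  · have h7 : j ^ 2 ≤ R + t := by omega
    have h8 : (t : ℤ) - A ≤ j := by omega
    have h9 : A + R + 2 ≤ (t : ℤ) - A := by omega
    nlinarith

lemma attractor_of_sparse (s : ℤ × ℤ → Bool) (A : ℤ) (hs : Sparse A s) : IsAttractor s := by
  intro s' hfin
  -- a box containing all differences
  obtain ⟨R, hR0, hRA, hR⟩ : ∃ R : ℤ, 0 ≤ R ∧ A ≤ R ∧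
      ∀ z, s z ≠ s' z → -R ≤ z.1 ∧ z.1 ≤ R ∧ -R ≤ z.2 ∧ z.2 ≤ R := by
    obtain ⟨M, hM⟩ := (hfin.image (fun z : ℤ × ℤ => max |z.1| |z.2|)).bddAbove
    refine ⟨max (max M A) 0, le_max_right _ _, (le_max_right _ _).trans (le_max_left _ _), ?_⟩
    intro z hz
    have h1 : max |z.1| |z.2| ≤ M := hM ⟨z, hz, rfl⟩
    have h2 : M ≤ max (max M A) 0 := (le_max_left _ _).trans (le_max_left _ _)
    have h3 := (le_max_left _ _).trans (h1.trans h2)
    have h4 := (le_max_right _ _).trans (h1.trans h2)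
    rw [abs_le] at h3 h4
    exact ⟨h3.1, h3.2, h4.1, h4.2⟩
  have hsR : Sparse R s := by
    intro i j h
    have := hs i j h
    refine ⟨by omega, ?_⟩
    rcases this.2 with h1 | h1
    · exact Or.inl (h1.trans hRA)
    · exact Or.inr h1
  have hsR' : Sparse R s' := by
    intro i j h
    by_cases hz : s (i, j) = s' (i, j)
    · exact hsR i j (hz.trans h)
    · have := hR _ hz
      exact ⟨this.2.2.1, Or.inl this.2.2.2⟩
  obtain ⟨T, hT⟩ : ∃ T : ℕ, 2 * R + R + 2 ≤ (T : ℤ) := ⟨(2 * R + R + 2).toNat, by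
    rw [Int.toNat_of_nonneg (by omega)]⟩
  -- all differences are in a finite box of space-time
  apply Set.Finite.subset ((Set.finite_Iio T).prod
    ((Set.finite_Icc (-R) (R + T)).prod (Set.finite_Icc (-R) (R + T))))
  rintro ⟨t, z⟩ hz
  have h1 := diff s s' R hR t z hz
  have h2 : t < T := by
    by_contra hcon
    apply hz
    have h3 : 2 * R + R + 2 ≤ (t : ℤ) := by omega
    have e1 := empty_late s R R hR0 hR0 hsR t h3 z.1 z.2 h1.2.1
    have e2 := empty_late s' R R hR0 hR0 hsR' t h3 z.1 z.2 h1.2.1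
    rw [show ((t, z) : ℕ × (ℤ × ℤ)).2 = (z.1, z.2) from rfl, e1, e2]
  refine ⟨h2, ⟨h1.1, ?_⟩, ⟨h1.2.2.1, ?_⟩⟩
  · exact h1.2.1.trans (by omega)
  · exact h1.2.2.2.trans (by omega)

/-- The configuration: ones at `(n ^ 2, j)`, `0 ≤ j ≤ n`. -/
noncomputable def s₀ (z : ℤ × ℤ) : Bool :=
  @decide (∃ n : ℕ, z.1 = (n : ℤ) ^ 2 ∧ 0 ≤ z.2 ∧ z.2 ≤ n) (Classical.propDecidable _)

lemma s₀_true (z : ℤ × ℤ) : s₀ z = true ↔ ∃ n : ℕ, z.1 = (n : ℤ) ^ 2 ∧ 0 ≤ z.2 ∧ z.2 ≤ n := by
  unfold s₀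
  exact @decide_eq_true_iff _ (Classical.propDecidable _)

/-- at all times: `0 ≤ j` and `j ^ 2 ≤ i` for all ones `(i, j)` -/
lemma tr_s₀ (t : ℕ) (i j : ℤ) (h : tr s₀ t (i, j) = true) : 0 ≤ j ∧ j ^ 2 ≤ i := by
  obtain ⟨⟨i1, h1, h2⟩, -⟩ := origin s₀ t i j h
  rw [s₀_true] at h2
  obtain ⟨n, h3, h4, h5⟩ := h2
  simp only at h3 h4 h5
  refine ⟨h4, ?_⟩
  have : j ^ 2 ≤ (n : ℤ) ^ 2 := by gcongr
  omega

lemma tr_ones (n : ℕ) (t : ℕ) : ∀ j : ℤ, (t : ℤ) ≤ j → j ≤ n →
    tr s₀ t ((n : ℤ) ^ 2, j) = true := by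
  induction t with
  | zero =>
    intro j h1 h2
    show s₀ _ = true
    rw [s₀_true]
    exact ⟨n, rfl, by simpa using h1, h2⟩
  | succ t ih =>
    intro j h1 h2
    show F _ _ _ _ = true
    push_cast at h1
    rw [ih j (by omega) h2, ih (j - 1) (by omega) (by omega)]
    simp [F]

/-- **Theorem.** There is a configuration `s` such that at every time the configuration of its
trajectory is an attractor with infinitely many ones and infinitely many zeroes. In particular
(`t = 0`) `s` is an attractor outside the bunches of all zeroes and of all ones. -/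
theorem result : ∃ s : ℤ × ℤ → Bool, ∀ t : ℕ, IsAttractor (tr s t) ∧
    {z | tr s t z = true}.Infinite ∧ {z | tr s t z = false}.Infinite := by
  refine ⟨s₀, fun t => ⟨?_, ?_, ?_⟩⟩
  · apply attractor_of_sparse (tr s₀ t) 0
    intro i j h
    have := tr_s₀ t i j h
    exact ⟨by simpa using this.1, Or.inr this.2⟩
  · apply Set.infinite_of_injective_forall_mem
      (f := fun k : ℕ => ((((k + t : ℕ) : ℤ)) ^ 2, (t : ℤ)))
    · intro k l hkl
      have h1 := (Prod.ext_iff.1 hkl).1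
      simp only at h1
      have h2 : ((k + t : ℕ) : ℤ) = ((l + t : ℕ) : ℤ) := by
        apply (pow_left_inj₀ (by positivity) (by positivity) (by norm_num : (2 : ℕ) ≠ 0)).1 h1
      omega
    · intro k
      exact tr_ones (k + t) t t le_rfl (by omega)
  · apply Set.infinite_of_injective_forall_mem (f := fun k : ℕ => ((0 : ℤ), -((k : ℤ) + 1)))
    · intro k l hkl
      have h1 := (Prod.ext_iff.1 hkl).2
      simp only at h1
      omega
    · intro k
      simp only [Set.mem_ofPred_eq]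
      rw [← Bool.not_eq_true]
      intro h
      have := (tr_s₀ t _ _ h).1
      omega

end Pool.Agent.Results.MP_851083_pr.MixedAttractor
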